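import Pool.Agent.Helper59.MB.Goals3

/-!
Project MB (MP_49a1ce_an), packet ISA: measure-theoretic isomorphism is symmetric and transitive.
-/

set_option autoImplicit false

open MeasureTheory Filter

namespace Pool.Agent.Helper15.MB

open Pool.Agent.Helper59.MB

theorem t_ISA : S_ISA := by
  constructor
  · intro Y Z _ _ T μ S ν hT h
    obtain ⟨φ, ψ, hφ, hψ, h1, h2, h3⟩ := h
    refine ⟨ψ, φ, hψ, hφ, ?_, h3, h2⟩
    have h4 : ∀ᵐ y ∂ν, φ (T (ψ y)) = S (φ (ψ y)) := hψ.quasiMeasurePreserving.ae h1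
    have h5 : ∀ᵐ y ∂ν, ψ (φ (T (ψ y))) = T (ψ y) := (hT.comp hψ).quasiMeasurePreserving.ae h2
    filter_upwards [h3, h4, h5] with y e3 e4 e5
    rw [e3] at e4
    rw [e4] at e5
    exact e5
  · intro Y Z W _ _ _ T μ S ν R ρ h h'
    obtain ⟨φ₁, ψ₁, hφ₁, hψ₁, h1, h2, h3⟩ := h
    obtain ⟨φ₂, ψ₂, hφ₂, hψ₂, k1, k2, k3⟩ := h'
    refine ⟨φ₂ ∘ φ₁, ψ₁ ∘ ψ₂, hφ₂.comp hφ₁, hψ₁.comp hψ₂, ?_, ?_, ?_⟩
    · have h4 : ∀ᵐ x ∂μ, φ₂ (S (φ₁ x)) = R (φ₂ (φ₁ x)) := hφ₁.quasiMeasurePreserving.ae k1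
      filter_upwards [h1, h4] with x e1 e4
      rw [Function.comp_apply, Function.comp_apply, e1, e4]
    · have h4 : ∀ᵐ x ∂μ, ψ₂ (φ₂ (φ₁ x)) = φ₁ x := hφ₁.quasiMeasurePreserving.ae k2
      filter_upwards [h2, h4] with x e2 e4
      rw [Function.comp_apply, Function.comp_apply, e4, e2]
    · have h4 : ∀ᵐ y ∂ρ, φ₁ (ψ₁ (ψ₂ y)) = ψ₂ y := hψ₂.quasiMeasurePreserving.ae h3
      filter_upwards [k3, h4] with y e3 e4
      rw [Function.comp_apply, Function.comp_apply, e4, e3]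

end Pool.Agent.Helper15.MB
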